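import Pool.Agent.H76.HB.Stmt

/-! PSX: the ranks of the pointed small flaps are bounded. -/

set_option autoImplicit false

open Set Pool.Agent.TK Pool.Agent.ST

namespace Pool.Agent.HB

/-- more marks on an isomorphism of flaps -/
theorem psx_FIh_add {C : Type} {h : ℕ → ℕ} {M M' : St C} {a a' : List ℕ} {D D' : Set ℕ}
    (H : FIh h M a D M' a' D') (x : List ℕ) (hx : ∀ z ∈ x, z ∈ D) :
    FIh h M (x ++ a) D M' (x.map h ++ a') D' := by
  obtain ⟨h1, h2, h3⟩ := H
  refine ⟨by simp [h1], h2, fun y hy => ?_⟩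
  have h4 : (x ++ a).zip (x.map h ++ a') = x.map (fun z => (z, h z)) ++ a.zip a' := by
    rw [List.zip_append (by simp)]
    congr 1
    induction x with
    | nil => rfl
    | cons z x ih => simp [ih fun z hz => hx z (List.mem_cons_of_mem _ hz)]
  rw [h4]
  refine (h3 (x ++ y) fun z hz => ?_).mono fun z hz => ?_
  · rcases List.mem_append.1 hz with hz | hz
    · exact hx z hz
    · exact hy z hz
  · simp only [List.mem_append, List.map_append] at hz ⊢
    tauto

theorem pf_PSX {C : Type} {c0 : C} (hCNT : CNT C c0) (hSCO : SCO C) : PSX C c0 := by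
  intro X hX hTC b
  obtain ⟨T, hT, hTv, hT2⟩ := hCNT X hX hTC b
  choose rk hrk using hSCO
  obtain ⟨e, he⟩ : ∃ e : ℕ → Fl C, T ⊆ range e := by
    rcases T.eq_empty_or_nonempty with rfl | hne
    · exact ⟨fun _ => ((fun _ _ => false, fun _ => c0), [], 0), empty_subset _⟩
    · obtain ⟨e, he⟩ := hT.exists_eq_range hne
      exact ⟨e, he.subset⟩
  let f : ℕ → Rk := fun n => match n with
    | 0 => b
    | n + 1 => let p := Denumerable.ofNat (ℕ × List ℕ) n
        rk (e p.1).1 (p.2 ++ (e p.1).2.1) (e p.1).set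
  refine ⟨Rk.sup f, RLe.sup f 0, ?_⟩
  intro M hM a v hv hsm x hx M' y D' hF
  obtain ⟨t, htT, h, hh⟩ := hT2 M hM a v hv hsm
  obtain ⟨n, rfl⟩ := he htT
  have h0 : FI M (x ++ a) (cp M (ms a) v) (e n).1 (x.map h ++ (e n).2.1) (e n).set :=
    ⟨h, psx_FIh_add hh x hx⟩
  have h1 : RLe C (rk (e n).1 (x.map h ++ (e n).2.1) (e n).set) (Rk.sup f) := by
    have h2 := RLe.sup (C := C) f (Encodable.encode ((n, x.map h) : ℕ × List ℕ) + 1)
    have h3 : f (Encodable.encode ((n, x.map h) : ℕ × List ℕ) + 1) =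
        rk (e n).1 (x.map h ++ (e n).2.1) (e n).set := by
      change rk (e (Denumerable.ofNat (ℕ × List ℕ) (Encodable.encode (n, x.map h))).1).1 _ _ = _
      rw [Denumerable.ofNat_encode]
    rw [h3] at h2
    exact h2
  exact h0.trans (hrk _ _ _ _ _ _ ((h0.symm.fb _).trans (hF.mono h1)))

end Pool.Agent.HB
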